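import Pool.Agent.H88.EN.Tree

/-! # Doob's inequality with marks on a finite dyadic tree

`c k j` is a dyadic martingale.  Every marked cell `q` is compared with an ancestor of level `r q`
which is not above any marked strict ancestor of `q`. -/

namespace EN

open Finset

open Classical in
/-- state at the cell `(k0 + g, j)`: reference value and running maximum; it is reset to
`(c k j, 0)` at marks -/
noncomputable def st (c : ℕ → ℕ → ℝ) (mk : ℕ → ℕ → Prop) (k0 : ℕ) : ℕ → ℕ → ℝ × ℝ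
  | 0, j => (c k0 j, 0)
  | g + 1, j =>
    let s := if mk (k0 + g) (j / 2) then (c (k0 + g) (j / 2), 0) else st c mk k0 g (j / 2)
    (s.1, max s.2 |c (k0 + g + 1) j - s.1|)

/-- the potential of a state -/
noncomputable def pf (x M : ℝ) : ℝ := 4 * x ^ 2 + 2 * M ^ 2 - 4 * M * x

theorem pf_ge (x M : ℝ) : M ^ 2 ≤ pf x M := by
  unfold pf; nlinarith [sq_nonneg (2 * x - M)]

theorem pf_max {x M : ℝ} (_hx : 0 ≤ x) (_hM : 0 ≤ M) : pf x (max M x) ≤ pf x M := by
  rcases le_total M x with h | h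
  · rw [max_eq_right h]; unfold pf; nlinarith [sq_nonneg (x - M)]
  · rw [max_eq_left h]

theorem pf_step {u d M : ℝ} (hM : 0 ≤ M) :
    1 / 2 * (pf |u + d| (max M |u + d|) + pf |u - d| (max M |u - d|)) ≤ pf |u| M + 4 * d ^ 2 := by
  have h1 := pf_max (abs_nonneg (u + d)) hM
  have h2 := pf_max (abs_nonneg (u - d)) hM
  have h3 : 2 * |u| ≤ |u + d| + |u - d| := by
    have := abs_add_le (u + d) (u - d)
    rw [show u + d + (u - d) = 2 * u by ring, abs_mul, abs_two] at this
    exact this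
  have h4 : |u + d| ^ 2 = (u + d) ^ 2 := sq_abs _
  have h5 : |u - d| ^ 2 = (u - d) ^ 2 := sq_abs _
  have h6 : |u| ^ 2 = u ^ 2 := sq_abs _
  unfold pf at h1 h2 ⊢
  nlinarith [mul_le_mul_of_nonneg_left h3 hM]

variable {c : ℕ → ℕ → ℝ} {mk : ℕ → ℕ → Prop} {k0 : ℕ}

theorem st_nonneg (g j : ℕ) : 0 ≤ (st c mk k0 g j).2 := by
  induction g generalizing j with
  | zero => simp [st]
  | succ g ih =>
    simp only [st]
    exact le_max_of_le_right (abs_nonneg _)

/-- invariant: all ancestors which are not above the last mark are close to the reference value -/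
theorem st_close (g j h : ℕ) (hg : h ≤ g)
    (hno : ∀ h', h < h' → h' < g → ¬ mk (k0 + h') (j / 2 ^ (g - h'))) :
    |c (k0 + h) (j / 2 ^ (g - h)) - (st c mk k0 g j).1| ≤ (st c mk k0 g j).2 := by
  induction g generalizing j with
  | zero =>
    have : h = 0 := by omega
    subst this
    simp [st]
  | succ g ih =>
    simp only [st]
    rcases Nat.lt_or_ge g h with h1 | h1
    · have h2 : h = g + 1 := by omega
      subst h2
      rw [show g + 1 - (g + 1) = 0 by omega, pow_zero, Nat.div_one,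
        show k0 + (g + 1) = k0 + g + 1 by ring]
      exact le_max_right _ _
    · have e : j / 2 ^ (g + 1 - h) = j / 2 / 2 ^ (g - h) := by
        rw [Nat.div_div_eq_div_mul, show g + 1 - h = (g - h) + 1 by omega, pow_succ, mul_comm]
      rw [e]
      by_cases hm : mk (k0 + g) (j / 2)
      · rw [if_pos hm]
        have h2 : h = g := by
          by_contra hne
          have h3 : h < g := by omega
          have := hno g h3 (by omega)
          rw [show g + 1 - g = 1 by omega, pow_one] at this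
          exact this hm
        subst h2
        simp
      · rw [if_neg hm]
        refine le_max_of_le_left (ih (j / 2) h1 ?_)
        intro h' h3 h4
        have := hno h' h3 (by omega)
        have e' : j / 2 ^ (g + 1 - h') = j / 2 / 2 ^ (g - h') := by
          rw [Nat.div_div_eq_div_mul, show g + 1 - h' = (g - h') + 1 by omega, pow_succ, mul_comm]
        rwa [e'] at this

/-- what is collected at level `k0 + g` -/
noncomputable def coll (c : ℕ → ℕ → ℝ) (mk : ℕ → ℕ → Prop) (k0 N g : ℕ) : ℝ :=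
  open Classical in
  ∑ j ∈ range (N * 2 ^ (k0 + g)),
    1 / 2 ^ (k0 + g) * (if mk (k0 + g) j then (st c mk k0 g j).2 ^ 2 else 0)

/-- the potential of level `k0 + g` -/
noncomputable def Psi (c : ℕ → ℕ → ℝ) (mk : ℕ → ℕ → Prop) (k0 N g : ℕ) : ℝ :=
  ∑ j ∈ range (N * 2 ^ (k0 + g)),
    1 / 2 ^ (k0 + g) * pf |c (k0 + g) j - (st c mk k0 g j).1| (st c mk k0 g j).2

theorem Psi_nonneg (N g : ℕ) : 0 ≤ Psi c mk k0 N g :=
  sum_nonneg fun _ _ => mul_nonneg (by positivity) ((sq_nonneg _).trans (pf_ge _ _))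

theorem Psi_zero (N : ℕ) : Psi c mk k0 N 0 = 0 := by
  unfold Psi
  refine sum_eq_zero fun j _ => ?_
  simp [st, pf]

theorem Psi_step (hm : ∀ k j, c k j = (c (k + 1) (2 * j) + c (k + 1) (2 * j + 1)) / 2) (N g : ℕ) :
    Psi c mk k0 N (g + 1) + coll c mk k0 N g ≤ Psi c mk k0 N g
      + 4 * ∑ j ∈ range (N * 2 ^ (k0 + g)), 1 / 2 ^ (k0 + g) *
          ((c (k0 + g + 1) (2 * j) - c (k0 + g + 1) (2 * j + 1)) / 2) ^ 2 := by
  unfold Psi coll
  rw [show k0 + (g + 1) = k0 + g + 1 by ring, sum_level, mul_sum, ← sum_add_distrib,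
    ← sum_add_distrib]
  refine sum_le_sum fun j _ => ?_
  set k := k0 + g with hk
  set d : ℝ := (c (k + 1) (2 * j) - c (k + 1) (2 * j + 1)) / 2 with hd
  have e1 : c (k + 1) (2 * j) = c k j + d := by rw [hd, hm k j]; ring
  have e2 : c (k + 1) (2 * j + 1) = c k j - d := by rw [hd, hm k j]; ring
  have j0 : 2 * j / 2 = j := by omega
  have j1 : (2 * j + 1) / 2 = j := by omega
  simp only [st]
  rw [j0, j1, ← hk, e1, e2]
  have hpow : (1 : ℝ) / 2 ^ (k + 1) = 1 / 2 ^ k * (1 / 2) := by rw [pow_succ]; field_simp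
  rw [hpow]
  have hp : (0 : ℝ) < 1 / 2 ^ k := by positivity
  by_cases hmk : mk k j
  · rw [if_pos hmk, if_pos hmk]
    have h1 := pf_step (u := (0 : ℝ)) (d := d) (M := 0) le_rfl
    have h2 := pf_ge |c k j - (st c mk k0 g j).1| (st c mk k0 g j).2
    have h3 : pf |(0 : ℝ)| 0 = 0 := by simp [pf]
    rw [h3] at h1
    simp only [zero_add, zero_sub] at h1
    simp only [add_sub_cancel_left, sub_sub_cancel_left] at *
    nlinarith [mul_le_mul_of_nonneg_left h1 hp.le, mul_le_mul_of_nonneg_left h2 hp.le]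
  · rw [if_neg hmk, if_neg hmk]
    have h1 := pf_step (u := c k j - (st c mk k0 g j).1) (d := d) (M := (st c mk k0 g j).2)
      (st_nonneg g j)
    have e3 : c k j + d - (st c mk k0 g j).1 = c k j - (st c mk k0 g j).1 + d := by ring
    have e4 : c k j - d - (st c mk k0 g j).1 = c k j - (st c mk k0 g j).1 - d := by ring
    rw [e3, e4]
    nlinarith [mul_le_mul_of_nonneg_left h1 hp.le]

theorem coll_sum (hm : ∀ k j, c k j = (c (k + 1) (2 * j) + c (k + 1) (2 * j + 1)) / 2)
    (N G : ℕ) :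
    ∑ g ∈ range G, coll c mk k0 N g ≤ 4 * ∑ g ∈ range G,
      ∑ j ∈ range (N * 2 ^ (k0 + g)), 1 / 2 ^ (k0 + g) *
          ((c (k0 + g + 1) (2 * j) - c (k0 + g + 1) (2 * j + 1)) / 2) ^ 2 := by
  have h : ∀ G, Psi c mk k0 N G + ∑ g ∈ range G, coll c mk k0 N g ≤ 4 * ∑ g ∈ range G,
      ∑ j ∈ range (N * 2 ^ (k0 + g)), 1 / 2 ^ (k0 + g) *
          ((c (k0 + g + 1) (2 * j) - c (k0 + g + 1) (2 * j + 1)) / 2) ^ 2 := by
    intro G
    induction G with
    | zero => simp [Psi_zero]
    | succ G ih =>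
      rw [sum_range_succ, sum_range_succ, mul_add]
      have := Psi_step (mk := mk) (k0 := k0) hm N G
      linarith
  have := h G
  have h0 := Psi_nonneg (c := c) (mk := mk) (k0 := k0) N G
  linarith

/-- **Doob's inequality with marks.** -/
theorem doob_marks (hm : ∀ k j, c k j = (c (k + 1) (2 * j) + c (k + 1) (2 * j + 1)) / 2)
    (N n k0 : ℕ) (mk : Finset (ℕ × ℕ)) (r : ℕ × ℕ → ℕ)
    (h0 : ∀ q ∈ mk, k0 ≤ r q ∧ r q ≤ q.1 ∧ q.1 < n ∧ q.2 < N * 2 ^ q.1)
    (hr : ∀ q ∈ mk, ∀ p ∈ mk, p.1 < q.1 → q.2 / 2 ^ (q.1 - p.1) = p.2 → p.1 ≤ r q) :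
    ∑ q ∈ mk, 1 / 2 ^ q.1 * (c q.1 q.2 - c (r q) (q.2 / 2 ^ (q.1 - r q))) ^ 2
      ≤ 16 * ∑ k ∈ Ico k0 n, ∑ j ∈ range (N * 2 ^ k), 1 / 2 ^ k *
          ((c (k + 1) (2 * j) - c (k + 1) (2 * j + 1)) / 2) ^ 2 := by
  classical
  set mk' : ℕ → ℕ → Prop := fun k j => (k, j) ∈ mk with hmk'
  have hcl : ∀ q ∈ mk, (c q.1 q.2 - c (r q) (q.2 / 2 ^ (q.1 - r q))) ^ 2
      ≤ 4 * (st c mk' k0 (q.1 - k0) q.2).2 ^ 2 := by
    intro q hq
    obtain ⟨a1, a2, a3, a4⟩ := h0 q hq
    have b1 := st_close (c := c) (mk := mk') (k0 := k0) (q.1 - k0) q.2 (q.1 - k0) le_rfl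
      (by intro h' x y; omega)
    have b2 := st_close (c := c) (mk := mk') (k0 := k0) (q.1 - k0) q.2 (r q - k0) (by omega)
      (by
        intro h' x y hmm
        have := hr q hq (k0 + h', q.2 / 2 ^ (q.1 - k0 - h')) hmm (by simp; omega) (by
          simp only
          congr 2; omega)
        simp only at this
        omega)
    have e1 : k0 + (q.1 - k0) = q.1 := by omega
    have e2 : k0 + (r q - k0) = r q := by omega
    have e3 : q.1 - k0 - (q.1 - k0) = 0 := by omega
    have e4 : q.1 - k0 - (r q - k0) = q.1 - r q := by omega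
    rw [e1, e3, pow_zero, Nat.div_one] at b1
    rw [e2, e4] at b2
    have hM := st_nonneg (c := c) (mk := mk') (k0 := k0) (q.1 - k0) q.2
    set M := (st c mk' k0 (q.1 - k0) q.2).2
    set ρ := (st c mk' k0 (q.1 - k0) q.2).1
    have h3 : |c q.1 q.2 - c (r q) (q.2 / 2 ^ (q.1 - r q))| ≤ 2 * M := by
      have := abs_sub_le (c q.1 q.2) ρ (c (r q) (q.2 / 2 ^ (q.1 - r q)))
      rw [abs_sub_comm ρ] at this
      linarith
    rw [← sq_abs]
    have := pow_le_pow_left₀ (abs_nonneg _) h3 2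
    nlinarith
  calc ∑ q ∈ mk, 1 / 2 ^ q.1 * (c q.1 q.2 - c (r q) (q.2 / 2 ^ (q.1 - r q))) ^ 2
      ≤ ∑ q ∈ mk, 4 * (1 / 2 ^ q.1 * (st c mk' k0 (q.1 - k0) q.2).2 ^ 2) := by
        refine sum_le_sum fun q hq => ?_
        have h1 := hcl q hq
        have h2 : (0 : ℝ) < 1 / 2 ^ q.1 := by positivity
        nlinarith [mul_le_mul_of_nonneg_left h1 h2.le]
    _ = 4 * ∑ q ∈ mk, 1 / 2 ^ q.1 * (st c mk' k0 (q.1 - k0) q.2).2 ^ 2 := by rw [mul_sum]
    _ ≤ 4 * ∑ g ∈ range (n - k0), coll c mk' k0 N g := by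
        refine mul_le_mul_of_nonneg_left ?_ (by norm_num)
        have h1 : ∑ q ∈ mk, 1 / 2 ^ q.1 * (st c mk' k0 (q.1 - k0) q.2).2 ^ 2
            = ∑ g ∈ range (n - k0), ∑ q ∈ mk.filter (fun q => q.1 - k0 = g),
                1 / 2 ^ q.1 * (st c mk' k0 (q.1 - k0) q.2).2 ^ 2 := by
          rw [sum_fiberwise_of_maps_to]
          intro q hq
          obtain ⟨a1, a2, a3, a4⟩ := h0 q hq
          rw [mem_range]; omega
        rw [h1]
        refine sum_le_sum fun g hg => ?_
        unfold coll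
        have hlev : ∀ q ∈ mk.filter (fun q => q.1 - k0 = g), q.1 = k0 + g ∧ q ∈ mk := by
          intro q hq
          rw [mem_filter] at hq
          obtain ⟨a1, a2, a3, a4⟩ := h0 q hq.1
          exact ⟨by omega, hq.1⟩
        have hinj : Set.InjOn Prod.snd
            (↑(mk.filter (fun q => q.1 - k0 = g)) : Set (ℕ × ℕ)) := by
          intro q hq q' hq' h
          have e1 := (hlev q (by exact_mod_cast hq)).1
          have e2 := (hlev q' (by exact_mod_cast hq')).1
          exact Prod.ext (e1.trans e2.symm) h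
        set G : ℕ → ℝ := fun j => 1 / 2 ^ (k0 + g) *
          (@ite ℝ (mk' (k0 + g) j) (Classical.propDecidable _) ((st c mk' k0 g j).2 ^ 2) 0) with hG
        have hG0 : ∀ j, 0 ≤ G j := by
          intro j
          rw [hG]
          refine mul_nonneg (by positivity) ?_
          split_ifs
          · positivity
          · exact le_rfl
        calc ∑ q ∈ mk.filter (fun q => q.1 - k0 = g),
              1 / 2 ^ q.1 * (st c mk' k0 (q.1 - k0) q.2).2 ^ 2
            = ∑ q ∈ mk.filter (fun q => q.1 - k0 = g), G q.2 := by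
              refine sum_congr rfl fun q hq => ?_
              obtain ⟨e1, e2⟩ := hlev q hq
              have e3 : mk' (k0 + g) q.2 := by
                show (k0 + g, q.2) ∈ mk
                rw [← e1]; exact e2
              rw [hG]
              simp only
              rw [if_pos e3, show q.1 - k0 = g by omega, e1]
          _ = ∑ j ∈ (mk.filter (fun q => q.1 - k0 = g)).image Prod.snd, G j := by
              rw [sum_image hinj]
          _ ≤ ∑ j ∈ range (N * 2 ^ (k0 + g)), G j := by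
              refine sum_le_sum_of_subset_of_nonneg ?_ fun j _ _ => hG0 j
              intro j hj
              obtain ⟨q, hq, rfl⟩ := mem_image.mp hj
              obtain ⟨e1, e2⟩ := hlev q hq
              have := (h0 q e2).2.2.2
              rw [e1] at this
              exact mem_range.mpr this
    _ ≤ 4 * (4 * ∑ g ∈ range (n - k0), ∑ j ∈ range (N * 2 ^ (k0 + g)), 1 / 2 ^ (k0 + g) *
          ((c (k0 + g + 1) (2 * j) - c (k0 + g + 1) (2 * j + 1)) / 2) ^ 2) :=
        mul_le_mul_of_nonneg_left (coll_sum hm N _) (by norm_num)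
    _ = _ := by
        rw [← mul_assoc, sum_Ico_eq_sum_range]
        norm_num

end EN
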