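import Pool.Agent.H66.GSC.Def

/-! # Overlaps: counting lemmas for the data of the energy theorem -/

set_option autoImplicit false
open Set Filter Topology MeasureTheory

namespace Pool.Agent.H66.GSC

/-- integration of a pointwise bound of the overlaps -/
theorem overlap {J : Finset ℕ} (lo hi w : ℕ → ℝ) {x y B : ℝ} (hxy : x ≤ y)
    (h1 : ∀ i ∈ J, x ≤ lo i ∧ lo i ≤ hi i ∧ hi i ≤ y)
    (hB : ∀ z, ∑ i ∈ J, (Ioc (lo i) (hi i)).indicator (fun _ => w i) z ≤ B) :
    ∑ i ∈ J, (hi i - lo i) * w i ≤ B * (y - x) := by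
  have hint : ∀ i ∈ J, IntegrableOn ((Ioc (lo i) (hi i)).indicator (fun _ => w i)) (Ioc x y) := by
    intro i _
    refine Integrable.indicator ?_ measurableSet_Ioc
    exact integrableOn_const (by simp) (by simp)
  have e1 : ∀ i ∈ J, (hi i - lo i) * w i
      = ∫ z in Ioc x y, (Ioc (lo i) (hi i)).indicator (fun _ => w i) z := by
    intro i hi'
    obtain ⟨a1, a2, a3⟩ := h1 i hi'
    rw [integral_indicator measurableSet_Ioc, Measure.restrict_restrict measurableSet_Ioc,
      inter_eq_left.mpr (Ioc_subset_Ioc a1 a3)]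
    simp [Measure.real, a2]
  rw [Finset.sum_congr rfl e1, ← integral_finset_sum _ hint]
  calc ∫ z in Ioc x y, ∑ i ∈ J, (Ioc (lo i) (hi i)).indicator (fun _ => w i) z
      ≤ ∫ _z in Ioc x y, B := by
        refine setIntegral_mono_on (integrable_finset_sum _ hint) ?_ measurableSet_Ioc
          fun z _ => hB z
        exact integrableOn_const (by simp) (by simp)
    _ = B * (y - x) := by
        simp [Measure.real, hxy, mul_comm]

/-- disjoint intervals inside `[x, y]` -/
theorem sum_len_le {J : Finset ℕ} (lo hi : ℕ → ℝ) {x y : ℝ} (hxy : x ≤ y)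
    (h1 : ∀ i ∈ J, x ≤ lo i ∧ lo i ≤ hi i ∧ hi i ≤ y)
    (hd : ∀ i ∈ J, ∀ j ∈ J, i < j → ¬(lo i < hi j ∧ lo j < hi i)) :
    ∑ i ∈ J, (hi i - lo i) ≤ y - x := by
  have h := overlap lo hi (fun _ => 1) (B := 1) hxy h1 (by
    intro z
    rw [← Finset.sum_filter_add_sum_filter_not J (fun i => z ∈ Ioc (lo i) (hi i))]
    have e2 : ∑ i ∈ J.filter (fun i => ¬ z ∈ Ioc (lo i) (hi i)),
        (Ioc (lo i) (hi i)).indicator (fun _ => (1 : ℝ)) z = 0 :=
      Finset.sum_eq_zero fun i hi' => indicator_of_notMem (Finset.mem_filter.mp hi').2 _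
    have e1 : ∑ i ∈ J.filter (fun i => z ∈ Ioc (lo i) (hi i)),
        (Ioc (lo i) (hi i)).indicator (fun _ => (1 : ℝ)) z
        = ∑ i ∈ J.filter (fun i => z ∈ Ioc (lo i) (hi i)), (1 : ℝ) :=
      Finset.sum_congr rfl fun i hi' => indicator_of_mem (Finset.mem_filter.mp hi').2 _
    rw [e1, e2, add_zero, Finset.sum_const, nsmul_eq_mul, mul_one]
    have hc : (J.filter (fun i => z ∈ Ioc (lo i) (hi i))).card ≤ 1 := by
      rw [Finset.card_le_one]
      intro i hi' j hj'
      rw [Finset.mem_filter] at hi' hj'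
      rcases lt_trichotomy i j with h | h | h
      · exact absurd ⟨hi'.2.1.trans_le hj'.2.2, hj'.2.1.trans_le hi'.2.2⟩ (hd i hi'.1 j hj'.1 h)
      · exact h
      · exact absurd ⟨hj'.2.1.trans_le hi'.2.2, hi'.2.1.trans_le hj'.2.2⟩ (hd j hj'.1 i hi'.1 h)
    exact_mod_cast hc)
  simpa using h

section

variable {I : Finset ℕ} {P L R T : ℕ → ℝ} {ε : ℝ}

/-- (α) for the intervals `[P - T, P]` -/
theorem Dat.alphaR (h : Dat I P L R T ε) {i j : ℕ} (hi : i ∈ I) (hj : j ∈ I) (hij : i < j)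
    (h1 : P i - T i ≤ P j) (h2 : P j - T j ≤ P i) : R i ≤ T j := by
  have hs := h.sep i hi j hj hij
  have a1 := h.T0 i hi
  have a2 := h.TL i hi
  rw [not_and_or, not_lt, not_lt] at hs
  rcases hs with hs | hs <;> linarith

/-- (α) for the intervals `[P, P + T]` -/
theorem Dat.alphaL (h : Dat I P L R T ε) {i j : ℕ} (hi : i ∈ I) (hj : j ∈ I) (hij : i < j)
    (h1 : P i ≤ P j + T j) (h2 : P j ≤ P i + T i) : L i ≤ T j := by
  have hs := h.sep i hi j hj hij
  have a1 := h.T0 i hi
  have a2 := h.TR i hi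
  rw [not_and_or, not_lt, not_lt] at hs
  rcases hs with hs | hs <;> linarith

/-- numbers which grow by the factor `10000` -/
theorem sum_sq_chain (J : Finset ℕ) (r : ℕ → ℝ) (h0 : ∀ i ∈ J, 0 ≤ r i)
    (hc : ∀ i ∈ J, ∀ j ∈ J, i < j → 10000 * r i ≤ r j) (B : ℝ) (hB : ∀ i ∈ J, r i ≤ B)
    (hB0 : 0 ≤ B) : ∑ i ∈ J, r i ^ 2 ≤ 2 * B ^ 2 := by
  induction J using Finset.induction_on_max generalizing B with
  | empty => simp; positivity
  | insert a s has ih =>
    have hna : a ∉ s := fun h => lt_irrefl a (has a h)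
    rw [Finset.sum_insert hna]
    have ha0 := h0 a (Finset.mem_insert_self a s)
    have haB := hB a (Finset.mem_insert_self a s)
    have h1 := ih (fun i hi => h0 i (Finset.mem_insert_of_mem hi))
      (fun i hi j hj hij => hc i (Finset.mem_insert_of_mem hi) j (Finset.mem_insert_of_mem hj) hij)
      (r a / 10000) (fun i hi => by
        have := hc i (Finset.mem_insert_of_mem hi) a (Finset.mem_insert_self a s) (has i hi)
        linarith) (by positivity)
    nlinarith

/-- `∑ T (L + R)² ≤ 128 ε²` -/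
theorem Dat.sum_sq (h : Dat I P L R T ε) (hε : 0 ≤ ε) (hε1 : ε ≤ 1) :
    ∑ i ∈ I, T i * (L i + R i) ^ 2 ≤ 128 * ε ^ 2 := by
  have bd : ∀ i ∈ I, 0 < T i ∧ T i ≤ 1 ∧ -7 ≤ P i ∧ P i ≤ 7 ∧ 0 < L i ∧ 0 < R i ∧ L i ≤ ε ∧
      R i ≤ ε := by
    intro i hi
    have a0 := h.T0 i hi
    have a1 := h.TL i hi
    have a2 := h.TR i hi
    have a3 := h.sm i hi
    have a4 := abs_le.mp (h.win i hi)
    refine ⟨a0, by linarith, a4.1, a4.2, by linarith, by linarith, by linarith, by linarith⟩
  have hR : ∑ i ∈ I, T i * R i ^ 2 ≤ 2 * ε ^ 2 * (8 - (-8)) := by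
    have := overlap (J := I) (fun i => P i - T i) P (fun i => R i ^ 2) (x := -8) (y := 8)
      (B := 2 * ε ^ 2) (by norm_num) (by
        intro i hi
        obtain ⟨b1, b2, b3, b4, b5, b6, b7, b8⟩ := bd i hi
        refine ⟨by linarith, by linarith, by linarith⟩) (by
        intro z
        rw [← Finset.sum_filter_add_sum_filter_not I (fun i => z ∈ Ioc (P i - T i) (P i))]
        have e2 : ∑ i ∈ I.filter (fun i => ¬ z ∈ Ioc (P i - T i) (P i)),
            (Ioc (P i - T i) (P i)).indicator (fun _ => R i ^ 2) z = 0 :=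
          Finset.sum_eq_zero fun i hi' => indicator_of_notMem (Finset.mem_filter.mp hi').2 _
        have e1 : ∑ i ∈ I.filter (fun i => z ∈ Ioc (P i - T i) (P i)),
            (Ioc (P i - T i) (P i)).indicator (fun _ => R i ^ 2) z
            = ∑ i ∈ I.filter (fun i => z ∈ Ioc (P i - T i) (P i)), R i ^ 2 :=
          Finset.sum_congr rfl fun i hi' => indicator_of_mem (Finset.mem_filter.mp hi').2 _
        rw [e1, e2, add_zero]
        refine sum_sq_chain _ R ?_ ?_ ε ?_ hε
        · intro i hi; exact (bd i (Finset.mem_filter.mp hi).1).2.2.2.2.2.1.le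
        · intro i hi j hj hij
          rw [Finset.mem_filter] at hi hj
          have h1 := h.alphaR hi.1 hj.1 hij (hi.2.1.le.trans hj.2.2) (hj.2.1.le.trans hi.2.2)
          have h2 := h.TR j hj.1
          linarith
        · intro i hi; exact (bd i (Finset.mem_filter.mp hi).1).2.2.2.2.2.2.2)
    simpa using this
  have hL : ∑ i ∈ I, T i * L i ^ 2 ≤ 2 * ε ^ 2 * (8 - (-8)) := by
    have := overlap (J := I) P (fun i => P i + T i) (fun i => L i ^ 2) (x := -8) (y := 8)
      (B := 2 * ε ^ 2) (by norm_num) (by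
        intro i hi
        obtain ⟨b1, b2, b3, b4, b5, b6, b7, b8⟩ := bd i hi
        refine ⟨by linarith, by linarith, by linarith⟩) (by
        intro z
        rw [← Finset.sum_filter_add_sum_filter_not I (fun i => z ∈ Ioc (P i) (P i + T i))]
        have e2 : ∑ i ∈ I.filter (fun i => ¬ z ∈ Ioc (P i) (P i + T i)),
            (Ioc (P i) (P i + T i)).indicator (fun _ => L i ^ 2) z = 0 :=
          Finset.sum_eq_zero fun i hi' => indicator_of_notMem (Finset.mem_filter.mp hi').2 _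
        have e1 : ∑ i ∈ I.filter (fun i => z ∈ Ioc (P i) (P i + T i)),
            (Ioc (P i) (P i + T i)).indicator (fun _ => L i ^ 2) z
            = ∑ i ∈ I.filter (fun i => z ∈ Ioc (P i) (P i + T i)), L i ^ 2 :=
          Finset.sum_congr rfl fun i hi' => indicator_of_mem (Finset.mem_filter.mp hi').2 _
        rw [e1, e2, add_zero]
        refine sum_sq_chain _ L ?_ ?_ ε ?_ hε
        · intro i hi; exact (bd i (Finset.mem_filter.mp hi).1).2.2.2.2.1.le
        · intro i hi j hj hij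
          rw [Finset.mem_filter] at hi hj
          have h1 := h.alphaL hi.1 hj.1 hij (hi.2.1.le.trans hj.2.2) (hj.2.1.le.trans hi.2.2)
          have h2 := h.TL j hj.1
          linarith
        · intro i hi; exact (bd i (Finset.mem_filter.mp hi).1).2.2.2.2.2.2.1)
    simpa using this
  calc ∑ i ∈ I, T i * (L i + R i) ^ 2 ≤ ∑ i ∈ I, (2 * (T i * R i ^ 2) + 2 * (T i * L i ^ 2)) := by
        refine Finset.sum_le_sum fun i hi => ?_
        have := (bd i hi).1
        nlinarith [mul_nonneg this.le (sq_nonneg (L i - R i))]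
    _ = 2 * ∑ i ∈ I, T i * R i ^ 2 + 2 * ∑ i ∈ I, T i * L i ^ 2 := by
        rw [Finset.sum_add_distrib, Finset.mul_sum, Finset.mul_sum]
    _ ≤ 128 * ε ^ 2 := by linarith

/-- the intervals `[P - T, P]` of a class with comparable `R` are disjoint -/
theorem Dat.sum_T_R (h : Dat I P L R T ε) {J : Finset ℕ} (hJ : J ⊆ I) {r x y : ℝ} (hxy : x ≤ y)
    (h1 : ∀ i ∈ J, r ≤ R i ∧ R i < 10000 * r ∧ x ≤ P i - T i ∧ P i ≤ y) :
    ∑ i ∈ J, T i ≤ y - x := by
  have := sum_len_le (J := J) (fun i => P i - T i) P hxy (by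
    intro i hi
    have := h.T0 i (hJ hi)
    obtain ⟨a1, a2, a3, a4⟩ := h1 i hi
    exact ⟨a3, by linarith, a4⟩) (by
    intro i hi j hj hij hm
    have h2 := h.alphaR (hJ hi) (hJ hj) hij hm.1.le hm.2.le
    have h3 := h.TR j (hJ hj)
    have h4 := (h1 j hj).2.1
    have h5 := (h1 i hi).1
    linarith)
  simpa using this

/-- the intervals `[P, P + T]` of a class with comparable `L` are disjoint -/
theorem Dat.sum_T_L (h : Dat I P L R T ε) {J : Finset ℕ} (hJ : J ⊆ I) {r x y : ℝ} (hxy : x ≤ y)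
    (h1 : ∀ i ∈ J, r ≤ L i ∧ L i < 10000 * r ∧ x ≤ P i ∧ P i + T i ≤ y) :
    ∑ i ∈ J, T i ≤ y - x := by
  have := sum_len_le (J := J) P (fun i => P i + T i) hxy (by
    intro i hi
    have := h.T0 i (hJ hi)
    obtain ⟨a1, a2, a3, a4⟩ := h1 i hi
    exact ⟨a3, by linarith, a4⟩) (by
    intro i hi j hj hij hm
    have h2 := h.alphaL (hJ hi) (hJ hj) hij hm.1.le hm.2.le
    have h3 := h.TL j (hJ hj)
    have h4 := (h1 j hj).2.1
    have h5 := (h1 i hi).1
    linarith)
  simpa using this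

end

end Pool.Agent.H66.GSC
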