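import Mathlib

/-! # The fourth root `qr`, and the averages `Apl`, `Ami` -/

namespace EN

open MeasureTheory intervalIntegral

/-- fourth root -/
noncomputable def qr (x : ℝ) : ℝ := Real.sqrt (Real.sqrt x)

/-- weighted average of `a` over `[u, Q]`, weight `2 (Q - z) / (Q - u)^2` -/
noncomputable def Apl (a : ℝ → ℝ) (u Q : ℝ) : ℝ := 2 / (Q - u) ^ 2 * ∫ z in u..Q, (Q - z) * a z

/-- weighted average of `a` over `[Q, u]`, weight `2 (z - Q) / (u - Q)^2` -/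
noncomputable def Ami (a : ℝ → ℝ) (u Q : ℝ) : ℝ := 2 / (u - Q) ^ 2 * ∫ z in Q..u, (z - Q) * a z

theorem qr_nonneg (x : ℝ) : 0 ≤ qr x := Real.sqrt_nonneg _

theorem qr_mono {x y : ℝ} (h : x ≤ y) : qr x ≤ qr y := Real.sqrt_le_sqrt (Real.sqrt_le_sqrt h)

theorem qr_mul {x y : ℝ} (hx : 0 ≤ x) : qr (x * y) = qr x * qr y := by
  unfold qr
  rw [Real.sqrt_mul hx, Real.sqrt_mul (Real.sqrt_nonneg x)]

theorem qr_zero : qr 0 = 0 := by simp [qr]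

theorem qr_one : qr 1 = 1 := by simp [qr]

theorem qr_pow4 {x : ℝ} (hx : 0 ≤ x) : (qr x) ^ 4 = x := by
  unfold qr
  have h1 : (Real.sqrt (Real.sqrt x)) ^ 4 = ((Real.sqrt (Real.sqrt x)) ^ 2) ^ 2 := by ring
  rw [h1, Real.sq_sqrt (Real.sqrt_nonneg x), Real.sq_sqrt hx]

theorem qr_pow {x : ℝ} (hx : 0 ≤ x) : qr (x ^ 4) = x := by
  unfold qr
  have h1 : x ^ 4 = (x ^ 2) ^ 2 := by ring
  rw [h1, Real.sqrt_sq (by positivity), Real.sqrt_sq hx]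

theorem qr_le_one {x : ℝ} (hx : x ≤ 1) : qr x ≤ 1 := by
  have := qr_mono hx
  rwa [qr_one] at this

/-- for `0 ≤ x ≤ 1`: `x ≤ qr x` -/
theorem le_qr {x : ℝ} (h0 : 0 ≤ x) (h1 : x ≤ 1) : x ≤ qr x := by
  have h2 : qr (x ^ 4) ≤ qr x := qr_mono (by nlinarith [pow_le_one₀ h0 h1 (n := 3), pow_nonneg h0 3])
  rwa [qr_pow h0] at h2

theorem qr_pos {x : ℝ} (hx : 0 < x) : 0 < qr x := Real.sqrt_pos.mpr (Real.sqrt_pos.mpr hx)

/-- `(x)^{1/4} ≤ c` if `x ≤ c^4` -/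
theorem qr_le {x c : ℝ} (hc : 0 ≤ c) (h : x ≤ c ^ 4) : qr x ≤ c := by
  have h2 := qr_mono h
  rwa [qr_pow hc] at h2

theorem le_qr_of {x c : ℝ} (hc : 0 ≤ c) (h : c ^ 4 ≤ x) : c ≤ qr x := by
  have h2 := qr_mono h
  rwa [qr_pow hc] at h2

/-- `κ = 2^{-3/4}` -/
noncomputable def kap : ℝ := qr (1 / 8)

theorem kap_pow4 : kap ^ 4 = 1 / 8 := qr_pow4 (by norm_num)

theorem kap_pos : 0 < kap := qr_pos (by norm_num)

/-- `κ² < 0.354` -/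
theorem kap_sq : kap ^ 2 ≤ 354 / 1000 := by
  have h := kap_pow4
  have h2 : (kap ^ 2) ^ 2 = 1 / 8 := by rw [← h]; ring
  by_contra hc
  push Not at hc
  have h0 : (0 : ℝ) ≤ 354 / 1000 := by norm_num
  nlinarith

/-- the scaling used in the recursions: `(1/2) * qr (2 x) = κ qr x` -/
theorem qr_two_mul {x : ℝ} (_hx : 0 ≤ x) : 1 / 2 * qr (2 * x) = kap * qr x := by
  unfold kap
  rw [qr_mul (by norm_num : (0:ℝ) ≤ 2), ← mul_assoc]
  congr 1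
  have h1 : (1 / 2 : ℝ) = qr ((1 / 2) ^ 4) := (qr_pow (by norm_num)).symm
  rw [h1, ← qr_mul (by norm_num)]
  norm_num

end EN
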