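import Pool.Agent.H88.EN.Qr

/-! # Dyadic means of a continuous function

The cell `(k, j)` is `[j / 2^k, (j+1) / 2^k]`.  `cm b k j` is the mean of `b` over it, `cd b k j`
the Haar coefficient: half of the difference of the means over the two children
`(k+1, 2j)`, `(k+1, 2j+1)`. -/

namespace EN

open MeasureTheory intervalIntegral Finset

/-- mean of `b` over the cell `(k, j)` -/
noncomputable def cm (b : ℝ → ℝ) (k j : ℕ) : ℝ :=
  2 ^ k * ∫ z in ((j : ℝ) / 2 ^ k)..(((j : ℝ) + 1) / 2 ^ k), b z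

/-- Haar coefficient -/
noncomputable def cd (b : ℝ → ℝ) (k j : ℕ) : ℝ :=
  (cm b (k + 1) (2 * j) - cm b (k + 1) (2 * j + 1)) / 2

/-- energy of the Haar coefficients of level `k` (root interval `[0, N]`) -/
noncomputable def dl (b : ℝ → ℝ) (N k : ℕ) : ℝ :=
  ∑ j ∈ range (N * 2 ^ k), 1 / 2 ^ k * (cd b k j) ^ 2

theorem cm_child {b : ℝ → ℝ} (hb : Continuous b) (k j : ℕ) :
    cm b k j = (cm b (k + 1) (2 * j) + cm b (k + 1) (2 * j + 1)) / 2 := by
  have e0 : ((2 * j : ℕ) : ℝ) / 2 ^ (k + 1) = (j : ℝ) / 2 ^ k := by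
    push_cast; rw [pow_succ]; field_simp
  have e2 : (((2 * j + 1 : ℕ) : ℝ) + 1) / 2 ^ (k + 1) = ((j : ℝ) + 1) / 2 ^ k := by
    push_cast; rw [pow_succ]; field_simp; ring
  have e1 : (((2 * j : ℕ) : ℝ) + 1) / 2 ^ (k + 1) = ((2 * j + 1 : ℕ) : ℝ) / 2 ^ (k + 1) := by
    push_cast; ring
  unfold cm
  rw [e0, e2, e1]
  have h := integral_add_adjacent_intervals
    (hb.intervalIntegrable (μ := volume) ((j : ℝ) / 2 ^ k) (((2 * j + 1 : ℕ) : ℝ) / 2 ^ (k + 1)))
    (hb.intervalIntegrable (μ := volume) (((2 * j + 1 : ℕ) : ℝ) / 2 ^ (k + 1)) (((j : ℝ) + 1) / 2 ^ k))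
  rw [← h]
  ring

theorem cm_left {b : ℝ → ℝ} (hb : Continuous b) (k j : ℕ) :
    cm b (k + 1) (2 * j) = cm b k j + cd b k j := by
  have h := cm_child hb k j
  unfold cd; linarith

theorem cm_right {b : ℝ → ℝ} (hb : Continuous b) (k j : ℕ) :
    cm b (k + 1) (2 * j + 1) = cm b k j - cd b k j := by
  have h := cm_child hb k j
  unfold cd; linarith

/-- the mean of a child differs from the mean of the parent by `± cd` -/
theorem cm_step {b : ℝ → ℝ} (hb : Continuous b) (k j : ℕ) :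
    |cm b (k + 1) j - cm b k (j / 2)| = |cd b k (j / 2)| := by
  rcases Nat.even_or_odd' j with ⟨c, hc | hc⟩
  · have : j / 2 = c := by omega
    rw [this, hc, cm_left hb]; congr 1; ring
  · have : j / 2 = c := by omega
    rw [this, hc, cm_right hb]
    rw [show cm b k c - cd b k c - cm b k c = - cd b k c by ring, abs_neg]

/-- sum over the cells of level `k + 1` = sum over the cells of level `k` of both children -/
theorem sum_level (N k : ℕ) (f : ℕ → ℝ) :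
    ∑ j ∈ range (N * 2 ^ (k + 1)), f j
      = ∑ j ∈ range (N * 2 ^ k), (f (2 * j) + f (2 * j + 1)) := by
  have h : N * 2 ^ (k + 1) = 2 * (N * 2 ^ k) := by rw [pow_succ]; ring
  rw [h]
  induction N * 2 ^ k with
  | zero => simp
  | succ m ih =>
    rw [show 2 * (m + 1) = 2 * m + 1 + 1 by ring, sum_range_succ, sum_range_succ, ih,
      sum_range_succ]
    ring

/-- a bound on the mean -/
theorem cm_abs_le {b : ℝ → ℝ} {η : ℝ} {N : ℕ}
    (hη : ∀ x : ℝ, 0 ≤ x → x ≤ N → |b x| ≤ η) (k j : ℕ) (hj : j < N * 2 ^ k) :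
    |cm b k j| ≤ η := by
  have h2 : (0 : ℝ) < 2 ^ k := by positivity
  have hjN : ((j : ℝ) + 1) / 2 ^ k ≤ N := by
    rw [div_le_iff₀ h2]
    have : ((j + 1 : ℕ) : ℝ) ≤ ((N * 2 ^ k : ℕ) : ℝ) := by exact_mod_cast hj
    push_cast at this
    linarith
  have hle : (j : ℝ) / 2 ^ k ≤ ((j : ℝ) + 1) / 2 ^ k := by gcongr; linarith
  have h := intervalIntegral.norm_integral_le_of_norm_le_const
    (a := (j : ℝ) / 2 ^ k) (b := ((j : ℝ) + 1) / 2 ^ k) (f := b) (C := η) (by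
      intro x hx
      rw [Set.uIoc_of_le hle] at hx
      rw [Real.norm_eq_abs]
      refine hη x ?_ (hx.2.trans hjN)
      exact le_trans (by positivity) hx.1.le)
  unfold cm
  rw [abs_mul, abs_of_pos h2]
  rw [Real.norm_eq_abs] at h
  have h3 : |((j : ℝ) + 1) / 2 ^ k - (j : ℝ) / 2 ^ k| = 1 / 2 ^ k := by
    rw [show ((j : ℝ) + 1) / 2 ^ k - (j : ℝ) / 2 ^ k = 1 / 2 ^ k by field_simp; ring]
    exact abs_of_pos (by positivity)
  rw [h3] at h
  calc 2 ^ k * |∫ z in ((j : ℝ) / 2 ^ k)..(((j : ℝ) + 1) / 2 ^ k), b z|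
      ≤ 2 ^ k * (η * (1 / 2 ^ k)) := by gcongr
    _ = η := by field_simp

theorem dl_nonneg (b : ℝ → ℝ) (N k : ℕ) : 0 ≤ dl b N k :=
  sum_nonneg fun _ _ => by positivity

/-- Bessel's inequality, as a telescoping sum -/
theorem bessel {b : ℝ → ℝ} (hb : Continuous b) {η : ℝ} {N : ℕ}
    (hη : ∀ x : ℝ, 0 ≤ x → x ≤ N → |b x| ≤ η) (n : ℕ) :
    ∑ k ∈ range n, dl b N k ≤ N * η ^ 2 := by
  have key : ∀ k, ∑ j ∈ range (N * 2 ^ (k + 1)), 1 / 2 ^ (k + 1) * (cm b (k + 1) j) ^ 2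
      = ∑ j ∈ range (N * 2 ^ k), 1 / 2 ^ k * (cm b k j) ^ 2 + dl b N k := by
    intro k
    rw [sum_level, dl, ← sum_add_distrib]
    refine sum_congr rfl fun j _ => ?_
    rw [cm_left hb, cm_right hb, pow_succ]
    field_simp
    ring
  have h2 : ∀ m, ∑ k ∈ range m, dl b N k
      = ∑ j ∈ range (N * 2 ^ m), 1 / 2 ^ m * (cm b m j) ^ 2
        - ∑ j ∈ range (N * 2 ^ 0), 1 / 2 ^ 0 * (cm b 0 j) ^ 2 := by
    intro m
    induction m with
    | zero => simp
    | succ m ih => rw [sum_range_succ, ih, key m]; ring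
  rw [h2 n]
  have h3 : 0 ≤ ∑ j ∈ range (N * 2 ^ 0), 1 / 2 ^ 0 * (cm b 0 j) ^ 2 :=
    sum_nonneg fun _ _ => by positivity
  have h4 : ∑ j ∈ range (N * 2 ^ n), 1 / 2 ^ n * (cm b n j) ^ 2
      ≤ ∑ j ∈ range (N * 2 ^ n), 1 / 2 ^ n * η ^ 2 := by
    refine sum_le_sum fun j hj => ?_
    have h5 := cm_abs_le hη n j (mem_range.mp hj)
    have h6 : (cm b n j) ^ 2 ≤ η ^ 2 := by
      rw [← sq_abs (cm b n j)]
      exact pow_le_pow_left₀ (abs_nonneg _) h5 2
    gcongr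
  have h7 : ∑ j ∈ range (N * 2 ^ n), 1 / 2 ^ n * η ^ 2 = N * η ^ 2 := by
    rw [sum_const, card_range, nsmul_eq_mul]
    push_cast
    field_simp
  linarith

/-- the cells of level `k + g` below the cells of level `k` -/
theorem sum_level_div (N k g : ℕ) (f : ℕ → ℝ) :
    ∑ j ∈ range (N * 2 ^ (k + g)), f (j / 2 ^ g)
      = 2 ^ g * ∑ j ∈ range (N * 2 ^ k), f j := by
  induction g generalizing f with
  | zero => simp
  | succ g ih =>
    rw [show k + (g + 1) = k + g + 1 by ring, sum_level]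
    have h : ∀ j, f (2 * j / 2 ^ (g + 1)) + f ((2 * j + 1) / 2 ^ (g + 1)) = 2 * f (j / 2 ^ g) := by
      intro j
      have h1 : 2 * j / 2 ^ (g + 1) = j / 2 ^ g := by
        rw [pow_succ, mul_comm (2 ^ g) 2, Nat.mul_div_mul_left _ _ (by norm_num)]
      have h2 : (2 * j + 1) / 2 ^ (g + 1) = j / 2 ^ g := by
        rw [pow_succ, mul_comm (2 ^ g) 2, ← Nat.div_div_eq_div_mul]
        congr 1
        omega
      rw [h1, h2]; ring
    rw [sum_congr rfl fun j _ => h j, ← mul_sum, ih f, pow_succ]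
    ring

end EN
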